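import Pool.Agent.Run7.h384.UNI.Univ
import Pool.Agent.Y424.LK.QLink

/-!
# Universality of colourings with tower growth of full height
-/

set_option autoImplicit false

namespace Pool.Agent.Run7.h384.UNI

open Finset Pool.Agent.TH138.NF Pool.Agent.Y424.LK

/-- The colouring `c` of the `(s + 2)`-subsets of `{0, …, N - 1}` contains the pattern `G` on `k`
vertices: there are vertices `φ 0 < … < φ (k - 1)` such that the colour of an `(s + 2)`-subset of
them is `G i j`, where `φ i < φ j` are its two smallest elements. -/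
def HasPattern (s N : ℕ) (c : Finset ℕ → Bool) (k : ℕ) (G : ℕ → ℕ → Bool) : Prop :=
  ∃ φ : ℕ → ℕ, (∀ j < k, ∀ i < j, φ i < φ j) ∧ (∀ i < k, φ i < N) ∧
    ∀ A ⊆ range k, A.card = s + 2 → ∀ i ∈ A, ∀ j ∈ A, i < j → (∀ z ∈ A, z = i ∨ j ≤ z) →
      c (A.image φ) = G i j

theorem hasPattern_zero (s N : ℕ) (c : Finset ℕ → Bool) (G : ℕ → ℕ → Bool) :
    HasPattern s N c 0 G := by
  refine ⟨fun _ => 0, fun j hj => absurd hj (Nat.not_lt_zero _),
    fun j hj => absurd hj (Nat.not_lt_zero _), ?_⟩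
  intro A hA hAc
  exfalso
  have := card_le_card hA
  simp only [range_zero, card_empty] at this
  omega

theorem main_nat (s a k z n N : ℕ) (hk : 1 ≤ k) (hz : 144 * k * (a + 1) ^ 2 ≤ z)
    (hn : n ≤ 2 ^ a * z) (hN : twr (s + 1) (4 * z + (s + 2) ^ 2) ≤ N) (c : Finset ℕ → Bool)
    (hc : ∀ H ⊆ range N, H.card = n → ¬ Homogeneous (s + 2) c H) (G : ℕ → ℕ → Bool) :
    HasPattern s N c k G := by
  classical
  have hκ : Fintype.card Bool ≤ 2 ^ 1 := by simp
  obtain ⟨U, hU, S, hS, hUc, hSc, hlt, hL⟩ := linkQ Bool (2 ^ (2 * z)) s (range N)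
    (by
      rw [card_range]
      refine (NQ_le _ 1 le_rfl hκ (2 * z) s).trans (le_trans (le_of_eq ?_) hN)
      congr 1
      ring) c
  have hmono : ∀ b, ∀ H ⊆ U, Mono (fun x y => c (insert x (insert y S))) b H →
      H.card < 2 ^ a * z := by
    intro b H hH hm
    by_contra hcon
    push Not at hcon
    obtain ⟨H', hH', hc'⟩ := exists_subset_card_eq (hn.trans hcon)
    refine hc H' (hH'.trans (hH.trans hU)) hc' ?_
    have h1 := homQ hL (hH'.trans hH) b (fun x hx y hy hxy => hm x (hH' hx) y (hH' hy) hxy)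
    intro A hA B hB hAc hBc
    rw [h1 A hA hAc, h1 B hB hBc]
  obtain ⟨φ, h1, h2⟩ := ordered_universal a k z hk hz (fun x y => c (insert x (insert y S))) U
    (by rw [hUc, pow_mul]; norm_num) hmono G
  refine ⟨φ, fun j hj i hi => (h2 j hj i hi).1, fun i hi => mem_range.1 (hU (h1 i hi)), ?_⟩
  intro A hA hAc i hi j hj hij hz
  have hinj : Set.InjOn φ (A : Set ℕ) := by
    intro x hx y hy hxy
    have hx' : x < k := mem_range.1 (hA hx)
    have hy' : y < k := mem_range.1 (hA hy)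
    rcases lt_trichotomy x y with h | h | h
    · exact absurd hxy ((h2 y hy' x h).1).ne
    · exact h
    · exact absurd hxy ((h2 x hx' y h).1).ne'
  have hjk : j < k := mem_range.1 (hA hj)
  have hAU : A.image φ ⊆ U := by
    intro x hx
    obtain ⟨t, ht, rfl⟩ := mem_image.1 hx
    exact h1 t (mem_range.1 (hA ht))
  rw [hL (A.image φ) hAU (by rw [card_image_of_injOn hinj, hAc]) (φ i) (mem_image_of_mem _ hi)
    (φ j) (mem_image_of_mem _ hj) (h2 j hjk i hij).1]
  · exact (h2 j hjk i hij).2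
  · intro x hx
    obtain ⟨t, ht, rfl⟩ := mem_image.1 hx
    rcases hz t ht with h | h
    · exact Or.inl (by rw [h])
    · right
      rcases h.eq_or_lt with e | e
      · rw [e]
      · exact (h2 t (mem_range.1 (hA ht)) j e).1.le

/-- real form -/
theorem main_real (s k n N : ℕ) (y : ℝ) (hy : 1 ≤ y)
    (hk : (k : ℝ) * (1 + Real.log (1 + n / y)) ^ 2 ≤ y)
    (hN : tow (s + 1) (2308 * y + ((s : ℝ) + 2) ^ 2) ≤ N) (c : Finset ℕ → Bool)
    (hc : ∀ H ⊆ range N, H.card = n → ¬ Homogeneous (s + 2) c H) (G : ℕ → ℕ → Bool) :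
    HasPattern s N c k G := by
  rcases Nat.eq_zero_or_pos k with rfl | hk0
  · exact hasPattern_zero s N c G
  have hy0 : 0 < y := by linarith
  set u : ℝ := 1 + n / y with hu
  have hu1 : 1 ≤ u := by
    have : (0 : ℝ) ≤ n / y := by positivity
    linarith
  have hlogu : 0 ≤ Real.log u := Real.log_nonneg hu1
  have hlog2 : (0.6931471803 : ℝ) < Real.log 2 := Real.log_two_gt_d9
  set a := ⌈Real.log u / Real.log 2⌉₊ with ha
  have ha1 : Real.log u / Real.log 2 ≤ a := Nat.le_ceil _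
  have ha2 : (a : ℝ) < Real.log u / Real.log 2 + 1 := Nat.ceil_lt_add_one (by positivity)
  set z := ⌈576 * y⌉₊ with hz
  have hz1 : 576 * y ≤ z := Nat.le_ceil _
  have hz2 : (z : ℝ) < 576 * y + 1 := Nat.ceil_lt_add_one (by positivity)
  have hpow : u ≤ (2 : ℝ) ^ a := by
    rw [div_le_iff₀ (by linarith)] at ha1
    rw [← Real.log_le_log_iff (by linarith) (by positivity), Real.log_pow]
    exact ha1
  apply main_nat s a k z n N hk0 ?_ ?_ ?_ c hc G
  · have h1 : (a : ℝ) + 1 ≤ 2 * (1 + Real.log u) := by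
      have h2 : Real.log u / Real.log 2 ≤ 2 * Real.log u := by
        rw [div_le_iff₀ (by linarith)]
        nlinarith
      linarith
    have h3 : ((a : ℝ) + 1) ^ 2 ≤ 4 * (1 + Real.log u) ^ 2 := by
      have : ((a : ℝ) + 1) ^ 2 ≤ (2 * (1 + Real.log u)) ^ 2 :=
        pow_le_pow_left₀ (by positivity) h1 2
      linarith
    have h4 : (144 : ℝ) * k * (a + 1) ^ 2 ≤ z := by
      calc (144 : ℝ) * k * (a + 1) ^ 2 ≤ 144 * k * (4 * (1 + Real.log u) ^ 2) :=
            mul_le_mul_of_nonneg_left h3 (by positivity)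
        _ = 576 * (k * (1 + Real.log u) ^ 2) := by ring
        _ ≤ 576 * y := by linarith
        _ ≤ z := hz1
    exact_mod_cast h4
  · have h1 : (n : ℝ) ≤ (2 : ℝ) ^ a * z := by
      calc (n : ℝ) = n / y * y := by field_simp
        _ ≤ u * y := mul_le_mul_of_nonneg_right (by rw [hu]; linarith) hy0.le
        _ ≤ (2 : ℝ) ^ a * z := mul_le_mul hpow (by linarith) hy0.le (by positivity)
    exact_mod_cast h1
  · have h1 : ((twr (s + 1) (4 * z + (s + 2) ^ 2) : ℕ) : ℝ) ≤ N := by
      rw [twr_cast]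
      refine le_trans (tow_mono _ ?_) hN
      push_cast
      linarith
    exact_mod_cast h1

theorem two_le_log {n : ℕ} (hn : 2 ≤ n) : 1 + Real.log (1 + n) ≤ 4 * Real.log n := by
  have hn' : (2 : ℝ) ≤ n := by exact_mod_cast hn
  have h1 : Real.log (1 + n) ≤ Real.log ((3 / 2 : ℝ) * n) :=
    Real.log_le_log (by positivity) (by linarith)
  rw [Real.log_mul (by norm_num) (by positivity)] at h1
  have h2 : Real.log (3 / 2 : ℝ) ≤ 1 / 2 := by
    have := Real.log_le_sub_one_of_pos (show (0 : ℝ) < 3 / 2 by norm_num)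
    linarith
  have h3 : Real.log 2 ≤ Real.log n := Real.log_le_log (by norm_num) hn'
  have h4 : (0.6931471803 : ℝ) < Real.log 2 := Real.log_two_gt_d9
  linarith

/-- fixed patterns -/
theorem main_fixed (s k n N : ℕ) (hn : 2 ≤ n)
    (hN : tow (s + 1) (2308 * (16 * k * Real.log n ^ 2 + 1) + ((s : ℝ) + 2) ^ 2) ≤ N)
    (c : Finset ℕ → Bool)
    (hc : ∀ H ⊆ range N, H.card = n → ¬ Homogeneous (s + 2) c H) (G : ℕ → ℕ → Bool) :
    HasPattern s N c k G := by
  have hn' : (2 : ℝ) ≤ n := by exact_mod_cast hn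
  have hlog : 0 ≤ Real.log n := Real.log_nonneg (by linarith)
  have hy : (1 : ℝ) ≤ 16 * k * Real.log n ^ 2 + 1 := by
    have : (0 : ℝ) ≤ 16 * k * Real.log n ^ 2 := by positivity
    linarith
  apply main_real s k n N (16 * k * Real.log n ^ 2 + 1) hy ?_ hN c hc G
  have h1 : Real.log (1 + n / (16 * k * Real.log n ^ 2 + 1)) ≤ Real.log (1 + n) := by
    apply Real.log_le_log (by positivity)
    have : (n : ℝ) / (16 * k * Real.log n ^ 2 + 1) ≤ n := div_le_self (by positivity) hy
    linarith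
  have h2 := two_le_log hn
  have h3 : (0 : ℝ) ≤ Real.log (1 + n / (16 * k * Real.log n ^ 2 + 1)) := by
    apply Real.log_nonneg
    have : (0 : ℝ) ≤ (n : ℝ) / (16 * k * Real.log n ^ 2 + 1) := by positivity
    linarith
  have h4 : (1 + Real.log (1 + n / (16 * k * Real.log n ^ 2 + 1))) ^ 2 ≤ (4 * Real.log n) ^ 2 :=
    pow_le_pow_left₀ (by linarith) (by linarith) 2
  have hk : (0 : ℝ) ≤ k := Nat.cast_nonneg _
  calc (k : ℝ) * (1 + Real.log (1 + n / (16 * k * Real.log n ^ 2 + 1))) ^ 2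
      ≤ k * (4 * Real.log n) ^ 2 := mul_le_mul_of_nonneg_left h4 hk
    _ ≤ _ := by
      have : (k : ℝ) * (4 * Real.log n) ^ 2 = 16 * k * Real.log n ^ 2 := by ring
      linarith

/-- tower growth of full height -/
theorem main_full (s : ℕ) (ε : ℝ) (hε : 0 < ε) (hε1 : ε ≤ 1) : ∃ n₀ : ℕ, ∀ n k N : ℕ, n₀ ≤ n →
    (k : ℝ) ≤ 1 / 1400000 * (ε / Real.log (2 / ε) ^ 2) * n → tow (s + 1) (ε * n) ≤ N →
    ∀ c : Finset ℕ → Bool, (∀ H ⊆ range N, H.card = n → ¬ Homogeneous (s + 2) c H) →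
      ∀ G : ℕ → ℕ → Bool, HasPattern s N c k G := by
  refine ⟨⌈(4616 + 2 * ((s : ℝ) + 2) ^ 2) / ε⌉₊, fun n k N hn hk hN c hc G => ?_⟩
  have hn1 : (4616 + 2 * ((s : ℝ) + 2) ^ 2) / ε ≤ n := (Nat.le_ceil _).trans (by exact_mod_cast hn)
  rw [div_le_iff₀ hε] at hn1
  have hsq : (0 : ℝ) ≤ ((s : ℝ) + 2) ^ 2 := by positivity
  have hn0 : (0 : ℝ) < n := by
    by_contra hcon
    push Not at hcon
    nlinarith
  set y : ℝ := ε * n / 4616 with hy
  have hy1 : 1 ≤ y := by rw [hy, le_div_iff₀ (by norm_num)]; linarith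
  apply main_real s k n N y hy1 ?_ (le_trans (tow_mono _ ?_) hN) c hc G
  · have hnum : (0.6931471803 : ℝ) < Real.log 2 := Real.log_two_gt_d9
    have h2ε : Real.log 2 ≤ Real.log (2 / ε) := by
      apply Real.log_le_log (by norm_num)
      rw [le_div_iff₀ hε]
      linarith
    have h1 : (1 : ℝ) + n / y = 1 + 4616 / ε := by
      rw [hy]
      field_simp
    have h2 : Real.log (1 + n / y) ≤ Real.log (2309 * (2 / ε)) := by
      rw [h1]
      apply Real.log_le_log (by positivity)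
      have : (1 : ℝ) ≤ 1 / ε := by rw [le_div_iff₀ hε]; linarith
      have h3 : 2309 * (2 / ε) = 4618 * (1 / ε) := by ring
      have h4 : (4616 : ℝ) / ε = 4616 * (1 / ε) := by ring
      rw [h3, h4]
      linarith
    rw [Real.log_mul (by norm_num) (by positivity)] at h2
    have h5 : Real.log 2309 ≤ 9 := by
      have h6 : Real.log 2309 ≤ Real.log (2 ^ 12) := Real.log_le_log (by norm_num) (by norm_num)
      rw [Real.log_pow] at h6
      have h7 := Real.log_two_lt_d9
      push_cast at h6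
      linarith
    have h0 : 0 ≤ Real.log (1 + n / y) := by
      apply Real.log_nonneg
      rw [h1]
      have : (0 : ℝ) ≤ 4616 / ε := by positivity
      linarith
    set l := Real.log (2 / ε) with hl
    have hl0 : 0 < l := by linarith
    have h8 : 1 + Real.log (1 + n / y) ≤ 17 * l := by
      nlinarith
    have h9 : (1 + Real.log (1 + n / y)) ^ 2 ≤ (17 * l) ^ 2 :=
      pow_le_pow_left₀ (by linarith) h8 2
    have hl2 : 0 < l ^ 2 := by positivity
    calc (k : ℝ) * (1 + Real.log (1 + n / y)) ^ 2 ≤ k * (17 * l) ^ 2 :=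
          mul_le_mul_of_nonneg_left h9 (Nat.cast_nonneg _)
      _ ≤ (1 / 1400000 * (ε / l ^ 2) * n) * (17 * l) ^ 2 :=
          mul_le_mul_of_nonneg_right hk (by positivity)
      _ = 289 / 1400000 * (ε * n) := by
          field_simp
          ring
      _ ≤ y := by
          rw [hy]
          have : 0 ≤ ε * n := by positivity
          linarith
  · rw [hy]
    linarith

end Pool.Agent.Run7.h384.UNI
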