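import Mathlib

/-!
# Ordered universality of Ramsey graphs

`d x y` (`x < y`) is the colour of the pair `{x, y}` of natural numbers.
-/

set_option autoImplicit false

namespace Pool.Agent.Run7.h384.UNI

open Finset

/-- all pairs of elements of `H` have the colour `b` -/
def Mono (d : ℕ → ℕ → Bool) (b : Bool) (H : Finset ℕ) : Prop :=
  ∀ x ∈ H, ∀ y ∈ H, x < y → d x y = b

theorem Mono.subset {d : ℕ → ℕ → Bool} {b : Bool} {H K : Finset ℕ} (h : Mono d b H) (hK : K ⊆ H) :
    Mono d b K := fun x hx y hy hxy => h x (hK hx) y (hK hy) hxy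

open Classical in
/-- the largest size of a subset of `W` of colour `b` -/
noncomputable def hm (d : ℕ → ℕ → Bool) (b : Bool) (W : Finset ℕ) : ℕ :=
  (W.powerset.filter (Mono d b)).sup card

theorem le_hm {d : ℕ → ℕ → Bool} {b : Bool} {W H : Finset ℕ} (hH : H ⊆ W) (h : Mono d b H) :
    H.card ≤ hm d b W := by
  classical
  unfold hm
  exact le_sup (f := card) (mem_filter.2 ⟨mem_powerset.2 hH, h⟩)

theorem exists_hm (d : ℕ → ℕ → Bool) (b : Bool) (W : Finset ℕ) :
    ∃ H ⊆ W, Mono d b H ∧ H.card = hm d b W := by
  classical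
  have hne : (W.powerset.filter (Mono d b)).Nonempty :=
    ⟨∅, mem_filter.2 ⟨empty_mem_powerset _, fun x hx => by simp at hx⟩⟩
  obtain ⟨H, hH, e⟩ := exists_mem_eq_sup _ hne card
  rw [mem_filter, mem_powerset] at hH
  exact ⟨H, hH.1, hH.2, e.symm⟩

theorem hm_mono {d : ℕ → ℕ → Bool} {b : Bool} {W W' : Finset ℕ} (h : W ⊆ W') :
    hm d b W ≤ hm d b W' := by
  obtain ⟨H, hH, h1, h2⟩ := exists_hm d b W
  rw [← h2]
  exact le_hm (hH.trans h) h1

theorem sqrt_step {a b : ℝ} (ha : 1 ≤ a) (hb : 0 < b) :
    2 * Real.sqrt ((a - 1) * b) ≤ 2 * Real.sqrt (a * b) - Real.sqrt (b / a) := by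
  have ha0 : 0 < a := by linarith
  have hab : 0 < a * b := mul_pos ha0 hb
  set s := Real.sqrt (b / a) with hs
  have hs0 : 0 < s := Real.sqrt_pos.2 (div_pos hb ha0)
  have hs2 : s ^ 2 = b / a := Real.sq_sqrt (div_pos hb ha0).le
  have e1 : Real.sqrt (a * b) = a * s := by
    rw [show a * b = (a * s) ^ 2 by rw [mul_pow, hs2]; field_simp]
    exact Real.sqrt_sq (mul_pos ha0 hs0).le
  have h1 : Real.sqrt ((a - 1) * b) ≤ a * s - s / 2 := by
    rw [show (a - 1) * b = (a ^ 2 - a) * s ^ 2 by rw [hs2]; field_simp]
    apply Real.sqrt_le_iff.2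
    constructor
    · nlinarith
    · nlinarith [sq_nonneg s]
  rw [e1]
  linarith

theorem exp_step {a b : ℝ} (ha : 1 ≤ a) (hb : 1 ≤ b) :
    Real.exp (2 * Real.sqrt ((a - 1) * b)) + Real.exp (2 * Real.sqrt (a * (b - 1))) ≤
      Real.exp (2 * Real.sqrt (a * b)) := by
  have ha0 : 0 < a := by linarith
  have hb0 : 0 < b := by linarith
  have h1 := sqrt_step ha hb0
  have h2 := sqrt_step hb ha0
  rw [mul_comm (b - 1) a, mul_comm b a] at h2
  set s := Real.sqrt (b / a) with hs
  have hs0 : 0 < s := Real.sqrt_pos.2 (div_pos hb0 ha0)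
  have e1 : Real.sqrt (a / b) = 1 / s := by
    rw [hs, one_div, ← Real.sqrt_inv, inv_div]
  rw [e1] at h2
  set X := 2 * Real.sqrt (a * b)
  have h3 : Real.exp (2 * Real.sqrt ((a - 1) * b)) ≤ Real.exp X * Real.exp (-s) := by
    rw [← Real.exp_add]
    exact Real.exp_le_exp.2 (by linarith)
  have h4 : Real.exp (2 * Real.sqrt (a * (b - 1))) ≤ Real.exp X * Real.exp (-(1 / s)) := by
    rw [← Real.exp_add]
    exact Real.exp_le_exp.2 (by linarith)
  have h5 : Real.exp (-s) ≤ 1 / (1 + s) := by
    rw [Real.exp_neg, ← one_div]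
    apply one_div_le_one_div_of_le (by linarith)
    have := Real.add_one_le_exp s
    linarith
  have h6 : Real.exp (-(1 / s)) ≤ s / (1 + s) := by
    rw [Real.exp_neg]
    have h7 := Real.add_one_le_exp (1 / s)
    have h8 : (0:ℝ) < (1 + s) / s := by positivity
    have h9 : (1 + s) / s ≤ Real.exp (1 / s) := by
      rw [add_div, div_self hs0.ne']
      exact h7
    calc (Real.exp (1 / s))⁻¹ ≤ ((1 + s) / s)⁻¹ := inv_anti₀ h8 h9
      _ = s / (1 + s) := inv_div _ _
  have h7 : 1 / (1 + s) + s / (1 + s) = 1 := by
    rw [← add_div]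
    exact div_self (by linarith)
  have h8 := Real.exp_pos X
  calc _ ≤ Real.exp X * Real.exp (-s) + Real.exp X * Real.exp (-(1 / s)) := add_le_add h3 h4
    _ = Real.exp X * (Real.exp (-s) + Real.exp (-(1 / s))) := by ring
    _ ≤ Real.exp X * 1 := by
        apply mul_le_mul_of_nonneg_left _ h8.le
        linarith
    _ = _ := mul_one _

/-- the theorem of Erdős and Szekeres in product form -/
theorem card_le_exp (d : ℕ → ℕ → Bool) : ∀ (m : ℕ) (W : Finset ℕ) (a b : ℕ), W.card ≤ m →
    (∀ H ⊆ W, Mono d true H → H.card ≤ a) → (∀ H ⊆ W, Mono d false H → H.card ≤ b) →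
    (W.card : ℝ) + 1 ≤ Real.exp (2 * Real.sqrt ((a : ℝ) * b)) := by
  classical
  intro m
  induction m with
  | zero =>
    intro W a b hW _ _
    have : W.card = 0 := by omega
    rw [this]
    simp only [Nat.cast_zero, zero_add]
    exact Real.one_le_exp (by positivity)
  | succ m ih =>
    intro W a b hW ha hb
    rcases W.eq_empty_or_nonempty with rfl | hne
    · simp only [card_empty, Nat.cast_zero, zero_add]
      exact Real.one_le_exp (by positivity)
    · set v := W.min' hne with hv
      have hvW : v ∈ W := min'_mem _ _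
      have hsing : ∀ c : Bool, Mono d c {v} := by
        intro c x hx y hy hxy
        rw [mem_singleton] at hx hy
        omega
      have ha1 : 1 ≤ a := by
        have := ha {v} (singleton_subset_iff.2 hvW) (hsing true)
        simpa using this
      have hb1 : 1 ≤ b := by
        have := hb {v} (singleton_subset_iff.2 hvW) (hsing false)
        simpa using this
      set N : Bool → Finset ℕ := fun c => (W.erase v).filter (fun x => d v x = c) with hN
      have hNW : ∀ c, N c ⊆ W := fun c => (filter_subset _ _).trans (erase_subset _ _)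
      have hvN : ∀ c, v ∉ N c := fun c h => by simp [hN] at h
      have hlt : ∀ c, ∀ x ∈ N c, v < x := by
        intro c x hx
        have h1 : v ≤ x := min'_le _ _ (hNW c hx)
        have h2 : x ≠ v := fun e => hvN c (e ▸ hx)
        omega
      have hcol : ∀ c, ∀ x ∈ N c, d v x = c := fun c x hx => (mem_filter.1 hx).2
      have hext : ∀ c, ∀ H ⊆ N c, Mono d c H → Mono d c (insert v H) := by
        intro c H hH hm x hx y hy hxy
        rw [mem_insert] at hx hy
        rcases hx with rfl | hx
        · rcases hy with rfl | hy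
          · exact absurd hxy (lt_irrefl _)
          · exact hcol c y (hH hy)
        · rcases hy with rfl | hy
          · exact absurd (hlt c x (hH hx)) (by omega)
          · exact hm x hx y hy hxy
      have hcard : W.card = (N true).card + (N false).card + 1 := by
        have h1 : (W.erase v).card + 1 = W.card := card_erase_add_one hvW
        have h2 : (N true).card + (N false).card = (W.erase v).card := by
          have h3 := card_filter_add_card_filter_not (s := W.erase v) (fun x => d v x = true)
          rw [← h3]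
          congr 2
          apply filter_congr
          intro x _
          simp
        omega
      have hlen : ∀ c, (N c).card ≤ m := by
        intro c
        have : (N c).card ≤ (W.erase v).card := card_le_card (filter_subset _ _)
        have h1 : (W.erase v).card + 1 = W.card := card_erase_add_one hvW
        omega
      obtain ⟨a, rfl⟩ : ∃ a', a = a' + 1 := ⟨a - 1, by omega⟩
      obtain ⟨b, rfl⟩ : ∃ b', b = b' + 1 := ⟨b - 1, by omega⟩
      have h1 := ih (N true) a (b + 1) (hlen true)
        (by
          intro H hH hm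
          have h2 := ha (insert v H) (insert_subset hvW (hH.trans (hNW _))) (hext true H hH hm)
          rw [card_insert_of_notMem (fun h => hvN _ (hH h))] at h2
          omega)
        (fun H hH hm => hb H (hH.trans (hNW _)) hm)
      have h2 := ih (N false) (a + 1) b (hlen false)
        (fun H hH hm => ha H (hH.trans (hNW _)) hm)
        (by
          intro H hH hm
          have h2 := hb (insert v H) (insert_subset hvW (hH.trans (hNW _))) (hext false H hH hm)
          rw [card_insert_of_notMem (fun h => hvN _ (hH h))] at h2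
          omega)
      have h3 := exp_step (a := ((a + 1 : ℕ) : ℝ)) (b := ((b + 1 : ℕ) : ℝ)) (by push_cast; linarith [Nat.cast_nonneg (α := ℝ) a])
        (by push_cast; linarith [Nat.cast_nonneg (α := ℝ) b])
      have e1 : ((a + 1 : ℕ) : ℝ) - 1 = (a : ℝ) := by push_cast; ring
      have e2 : ((b + 1 : ℕ) : ℝ) - 1 = (b : ℝ) := by push_cast; ring
      rw [e1, e2] at h3
      rw [hcard]
      push_cast at h1 h2 h3 ⊢
      linarith

theorem log_sq_le (d : ℕ → ℕ → Bool) (W : Finset ℕ) (hW : W.Nonempty) :
    Real.log W.card ^ 2 / 4 ≤ (hm d true W : ℝ) * hm d false W := by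
  have h1 := card_le_exp d W.card W (hm d true W) (hm d false W) le_rfl
    (fun H hH h => le_hm hH h) (fun H hH h => le_hm hH h)
  have h2 : (1 : ℝ) ≤ W.card := by exact_mod_cast hW.card_pos
  have h3 : Real.log W.card ≤ 2 * Real.sqrt ((hm d true W : ℝ) * hm d false W) := by
    rw [Real.log_le_iff_le_exp (by linarith)]
    linarith
  have h4 : 0 ≤ Real.log W.card := Real.log_nonneg h2
  have h5 : (0 : ℝ) ≤ (hm d true W : ℝ) * hm d false W := by positivity
  have h6 : Real.log W.card ^ 2 ≤ (2 * Real.sqrt ((hm d true W : ℝ) * hm d false W)) ^ 2 :=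
    pow_le_pow_left₀ h4 h3 2
  rw [mul_pow, Real.sq_sqrt h5] at h6
  linarith

end Pool.Agent.Run7.h384.UNI
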