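import Pool.Agent.Run7.h384.UNI.Core

/-!
# Embedding ordered patterns, or a pair of sets with one dominating colour
-/

set_option autoImplicit false

namespace Pool.Agent.Run7.h384.UNI

open Finset

/-- an increasing copy of the pattern `G` on `{0, …, k - 1}` inside `W` -/
def Copy (d : ℕ → ℕ → Bool) (W : Finset ℕ) (k : ℕ) (G : ℕ → ℕ → Bool) : Prop :=
  ∃ φ : ℕ → ℕ, (∀ i < k, φ i ∈ W) ∧ ∀ j < k, ∀ i < j, φ i < φ j ∧ d (φ i) (φ j) = G i j

/-- `A < B` elementwise and every element of `A` has the colour `s` to all but a proportion `1/q` of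
the elements of `B` -/
structure Dom (d : ℕ → ℕ → Bool) (q : ℕ) (s : Bool) (A B : Finset ℕ) : Prop where
  lt : ∀ a ∈ A, ∀ b ∈ B, a < b
  few : ∀ a ∈ A, q * (B.filter (fun b => d a b ≠ s)).card ≤ B.card

theorem embed (d : ℕ → ℕ → Bool) (q M : ℕ) (hq : 1 ≤ q) (hM : 1 ≤ M) : ∀ (k : ℕ) (G : ℕ → ℕ → Bool)
    (U : ℕ → Finset ℕ), (∀ j < k, q ^ k * M ≤ (U j).card) →
    (∀ j < k, ∀ i < j, ∀ x ∈ U i, ∀ y ∈ U j, x < y) →
    (∃ φ : ℕ → ℕ, (∀ i < k, φ i ∈ U i) ∧ ∀ j < k, ∀ i < j, d (φ i) (φ j) = G i j) ∨
    ∃ j < k, ∃ i < j, ∃ A ⊆ U i, ∃ B ⊆ U j, ∃ s : Bool, M ≤ k * A.card ∧ q * M ≤ B.card ∧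
      Dom d q s A B := by
  classical
  intro k
  induction k with
  | zero =>
    intro G U _ _
    exact Or.inl ⟨fun _ => 0, fun i hi => absurd hi (Nat.not_lt_zero _),
      fun i hi => absurd hi (Nat.not_lt_zero _)⟩
  | succ k ih =>
    intro G U hU hlt
    by_cases hgood : ∃ v ∈ U 0, ∀ j < k,
        (U (j + 1)).card ≤ q * ((U (j + 1)).filter (fun u => d v u = G 0 (j + 1))).card
    · obtain ⟨v, hv, hg⟩ := hgood
      rcases ih (fun i j => G (i + 1) (j + 1))
        (fun j => (U (j + 1)).filter (fun u => d v u = G 0 (j + 1))) (by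
          intro j hj
          have h1 := hU (j + 1) (by omega)
          have h2 := hg j hj
          have h3 : q * (q ^ k * M) ≤
              q * ((U (j + 1)).filter (fun u => d v u = G 0 (j + 1))).card := by
            calc q * (q ^ k * M) = q ^ (k + 1) * M := by ring
              _ ≤ _ := h1.trans h2
          exact Nat.le_of_mul_le_mul_left h3 (by omega)) (by
          intro j hj i hi x hx y hy
          exact hlt (j + 1) (by omega) (i + 1) (by omega) x (mem_filter.1 hx).1 y
            (mem_filter.1 hy).1) with ⟨φ, h1, h2⟩ | ⟨j, hj, i, hi, A, hA, B, hB, s, h1, h2, h3⟩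
      · left
        refine ⟨fun i => if i = 0 then v else φ (i - 1), ?_, ?_⟩
        · intro i hi
          by_cases h0 : i = 0
          · subst h0; simpa using hv
          · simp only [h0, if_false]
            have := (mem_filter.1 (h1 (i - 1) (by omega))).1
            rwa [show i - 1 + 1 = i by omega] at this
        · intro j hj i hi
          have hj0 : j ≠ 0 := by omega
          by_cases h0 : i = 0
          · subst h0
            simp only [if_true, hj0, if_false]
            have := (mem_filter.1 (h1 (j - 1) (by omega))).2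
            rwa [show j - 1 + 1 = j by omega] at this
          · simp only [h0, hj0, if_false]
            have := h2 (j - 1) (by omega) (i - 1) (by omega)
            rwa [show j - 1 + 1 = j by omega, show i - 1 + 1 = i by omega] at this
      · right
        refine ⟨j + 1, by omega, i + 1, by omega, A, hA.trans (filter_subset _ _), B,
          hB.trans (filter_subset _ _), s, ?_, h2, h3⟩
        exact h1.trans (Nat.mul_le_mul_right _ (by omega))
    · right
      push Not at hgood
      -- pigeonhole on the index
      have hk : 0 < k ∨ k = 0 := by omega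
      rcases hk with hk | rfl
      · have hU0 := hU 0 (by omega)
        choose! f hf1 hf2 using hgood
        have hmap : ∀ v ∈ U 0, f v ∈ range k := fun v hv => mem_range.2 (hf1 v hv)
        have hne : (range k).Nonempty := ⟨0, mem_range.2 hk⟩
        obtain ⟨j, hj, hjc⟩ := exists_max_image (range k)
          (fun j => ((U 0).filter (fun v => f v = j)).card) hne
        have hsum : (U 0).card = ∑ j ∈ range k, ((U 0).filter (fun v => f v = j)).card :=
          card_eq_sum_card_fiberwise hmap
        have hle : (U 0).card ≤ k * ((U 0).filter (fun v => f v = j)).card := by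
          rw [hsum]
          calc _ ≤ ∑ _j ∈ range k, ((U 0).filter (fun v => f v = j)).card := sum_le_sum hjc
            _ = _ := by rw [sum_const, card_range, smul_eq_mul]
        have hjk := mem_range.1 hj
        refine ⟨j + 1, by omega, 0, by omega, (U 0).filter (fun v => f v = j), filter_subset _ _,
          U (j + 1), Subset.refl _, !(G 0 (j + 1)), ?_, ?_, ?_, ?_⟩
        · have h1 : M ≤ q ^ (k + 1) * M := Nat.le_mul_of_pos_left _ (pow_pos (by omega) _)
          have h2 : k * ((U 0).filter (fun v => f v = j)).card ≤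
              (k + 1) * ((U 0).filter (fun v => f v = j)).card :=
            Nat.mul_le_mul_right _ (by omega)
          omega
        · have h1 := hU (j + 1) (by omega)
          refine le_trans ?_ h1
          apply Nat.mul_le_mul_right
          calc q = q ^ 1 := (pow_one q).symm
            _ ≤ q ^ (k + 1) := Nat.pow_le_pow_right hq (by omega)
        · intro a ha b hb
          exact hlt (j + 1) (by omega) 0 (by omega) a (mem_filter.1 ha).1 b hb
        · intro a ha
          rw [mem_filter] at ha
          have h1 := hf2 a ha.1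
          rw [ha.2] at h1
          have h2 : ((U (j + 1)).filter (fun b => d a b ≠ !(G 0 (j + 1)))) =
              ((U (j + 1)).filter (fun u => d a u = G 0 (j + 1))) := by
            apply filter_congr
            intro x _
            cases d a x <;> cases G 0 (j + 1) <;> simp
          rw [h2]
          exact h1.le
      · -- `k = 0` : everything is good, so `U 0` is empty
        have h0 : ∀ v ∈ U 0, False := by
          intro v hv
          obtain ⟨j, hj, -⟩ := hgood v hv
          omega
        have h1 := hU 0 (by omega)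
        have h2 : (U 0).card = 0 := by
          rw [card_eq_zero, eq_empty_iff_forall_notMem]
          exact h0
        rw [h2] at h1
        have h3 : 0 < q ^ (0 + 1) * M := Nat.mul_pos (pow_pos (by omega) _) hM
        omega

/-- consecutive blocks -/
theorem blocks (m : ℕ) : ∀ (k : ℕ) (W : Finset ℕ), k * m ≤ W.card →
    ∃ U : ℕ → Finset ℕ, (∀ j < k, U j ⊆ W ∧ (U j).card = m) ∧
      ∀ j < k, ∀ i < j, ∀ x ∈ U i, ∀ y ∈ U j, x < y := by
  classical
  intro k W hW
  set e := W.orderEmbOfFin rfl with he
  have hpos : ∀ j < k, ∀ t < m, j * m + t < W.card := by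
    intro j hj t ht
    have : (j + 1) * m ≤ k * m := Nat.mul_le_mul_right _ (by omega)
    rw [add_mul, one_mul] at this
    omega
  refine ⟨fun j => if hj : j < k then
    univ.image (fun t : Fin m => e ⟨j * m + t, hpos j hj t t.2⟩) else ∅, ?_, ?_⟩
  · intro j hj
    simp only [hj, dif_pos]
    constructor
    · intro x hx
      obtain ⟨t, -, rfl⟩ := mem_image.1 hx
      exact orderEmbOfFin_mem _ _ _
    · rw [card_image_of_injective, card_univ, Fintype.card_fin]
      intro t t' h
      have := e.injective h
      rw [Fin.mk.injEq] at this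
      exact Fin.ext (by omega)
  · intro j hj i hi x hx y hy
    have hik : i < k := by omega
    simp only [hj, hik, dif_pos] at hx hy
    obtain ⟨t, -, rfl⟩ := mem_image.1 hx
    obtain ⟨u, -, rfl⟩ := mem_image.1 hy
    apply e.strictMono
    rw [Fin.lt_def]
    have h1 : (i + 1) * m ≤ j * m := Nat.mul_le_mul_right _ (by omega)
    rw [add_mul, one_mul] at h1
    have := t.2
    show i * m + t < j * m + u
    omega

/-- Sets without an increasing copy of `G` contain a pair with a dominating colour. -/
theorem exists_dom (d : ℕ → ℕ → Bool) {q M k : ℕ} (hq : 1 ≤ q) (hM : 1 ≤ M)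
    (G : ℕ → ℕ → Bool) (W : Finset ℕ) (hW : k * (q ^ k * M) ≤ W.card) (hG : ¬ Copy d W k G) :
    ∃ A ⊆ W, ∃ B ⊆ W, ∃ s : Bool, M ≤ k * A.card ∧ q * M ≤ B.card ∧ Dom d q s A B := by
  obtain ⟨U, hU, hlt⟩ := blocks (q ^ k * M) k W hW
  rcases embed d q M hq hM k G U (fun j hj => (hU j hj).2.ge) hlt with
    ⟨φ, h1, h2⟩ | ⟨j, hj, i, hi, A, hA, B, hB, s, h1, h2, h3⟩
  · exfalso
    apply hG
    refine ⟨φ, fun i hi => (hU i hi).1 (h1 i hi), fun j hj i hi => ⟨?_, h2 j hj i hi⟩⟩
    exact hlt j hj i hi _ (h1 i (by omega)) _ (h1 j hj)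
  · exact ⟨A, hA.trans (hU i (by omega)).1, B, hB.trans (hU j hj).1, s, h1, h2, h3⟩

end Pool.Agent.Run7.h384.UNI
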