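import Pool.Agent.Run7.h384.UNI.Emb

/-!
# Ordered universality
-/

set_option autoImplicit false

namespace Pool.Agent.Run7.h384.UNI

open Finset

theorem one_add_pow_le (b n t : ℕ) (hn : n ≤ t) :
    (1 + (1 / 2 : ℝ) ^ b) ^ n ≤ (2 : ℝ) ^ ((2 * t : ℝ) / 2 ^ b) := by
  have h1 : (1 + (1 / 2 : ℝ) ^ b) ≤ Real.exp ((1 / 2 : ℝ) ^ b) := by
    have := Real.add_one_le_exp ((1 / 2 : ℝ) ^ b)
    linarith
  have hx : (0 : ℝ) < (1 / 2 : ℝ) ^ b := by positivity
  have h2 : (1 + (1 / 2 : ℝ) ^ b) ^ n ≤ Real.exp ((1 / 2 : ℝ) ^ b * t) := by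
    calc (1 + (1 / 2 : ℝ) ^ b) ^ n ≤ (1 + (1 / 2 : ℝ) ^ b) ^ t :=
          pow_le_pow_right₀ (by linarith) hn
      _ ≤ Real.exp ((1 / 2 : ℝ) ^ b) ^ t := pow_le_pow_left₀ (by positivity) h1 t
      _ = Real.exp ((1 / 2 : ℝ) ^ b * t) := by rw [← Real.exp_nat_mul]; ring_nf
  refine h2.trans ?_
  rw [Real.rpow_def_of_pos (by norm_num)]
  apply Real.exp_le_exp.2
  have h3 : (1 / 2 : ℝ) < Real.log 2 := by
    have := Real.log_two_gt_d9
    linarith
  have h4 : (2 * t : ℝ) / 2 ^ b = 2 * ((1 / 2 : ℝ) ^ b * t) := by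
    rw [one_div, inv_pow]
    ring
  rw [h4]
  have h5 : (0 : ℝ) ≤ (1 / 2 : ℝ) ^ b * t := by positivity
  nlinarith

theorem card_small (I : Finset ℕ) (b t E : ℕ) (hI : I.card ≤ t)
    (hE : (2 * b + 2) * t ≤ 2 ^ b * E) :
    (I.powerset.filter (fun R => 2 ^ b * R.card ≤ 2 * I.card)).card ≤ 2 ^ E := by
  classical
  set 𝓡 := I.powerset.filter (fun R => 2 ^ b * R.card ≤ 2 * I.card) with h𝓡
  have h1 : ∑ R ∈ I.powerset, ((1 / 2 : ℝ) ^ b) ^ R.card = (1 + (1 / 2 : ℝ) ^ b) ^ I.card := by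
    have := Finset.sum_pow_mul_eq_add_pow ((1 / 2 : ℝ) ^ b) 1 I
    simp only [one_pow, mul_one] at this
    rw [this, add_comm]
  have h2 : ∀ R ∈ 𝓡, (2 : ℝ) ^ (-((2 * b * t : ℝ) / 2 ^ b)) ≤ ((1 / 2 : ℝ) ^ b) ^ R.card := by
    intro R hR
    have hR2 := (mem_filter.1 hR).2
    have h3 : ((1 / 2 : ℝ) ^ b) ^ R.card = (2 : ℝ) ^ (-((b : ℝ) * R.card)) := by
      rw [Real.rpow_neg (by norm_num), ← pow_mul, one_div, inv_pow]
      congr 1
      rw [← Nat.cast_mul, Real.rpow_natCast]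
    rw [h3]
    apply Real.rpow_le_rpow_of_exponent_le (by norm_num)
    apply neg_le_neg
    rw [le_div_iff₀ (by positivity)]
    have h4 : (2 : ℝ) ^ b * R.card ≤ 2 * t := by
      have h5 : 2 ^ b * R.card ≤ 2 * t := by omega
      exact_mod_cast h5
    have hb : (0 : ℝ) ≤ b := Nat.cast_nonneg _
    calc (b : ℝ) * R.card * 2 ^ b = b * (2 ^ b * R.card) := by ring
      _ ≤ b * (2 * t) := mul_le_mul_of_nonneg_left h4 hb
      _ = _ := by ring
  have h3 : (𝓡.card : ℝ) * (2 : ℝ) ^ (-((2 * b * t : ℝ) / 2 ^ b)) ≤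
      (2 : ℝ) ^ ((2 * t : ℝ) / 2 ^ b) := by
    calc (𝓡.card : ℝ) * (2 : ℝ) ^ (-((2 * b * t : ℝ) / 2 ^ b))
        = ∑ _R ∈ 𝓡, (2 : ℝ) ^ (-((2 * b * t : ℝ) / 2 ^ b)) := by
          rw [sum_const, nsmul_eq_mul]
      _ ≤ ∑ R ∈ 𝓡, ((1 / 2 : ℝ) ^ b) ^ R.card := sum_le_sum h2
      _ ≤ ∑ R ∈ I.powerset, ((1 / 2 : ℝ) ^ b) ^ R.card :=
          sum_le_sum_of_subset_of_nonneg (filter_subset _ _) (fun _ _ _ => by positivity)
      _ = _ := h1
      _ ≤ _ := one_add_pow_le b _ _ hI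
  have h4 : (𝓡.card : ℝ) ≤ (2 : ℝ) ^ E := by
    have h5 : (0 : ℝ) < (2 : ℝ) ^ (-((2 * b * t : ℝ) / 2 ^ b)) := Real.rpow_pos_of_pos (by norm_num) _
    have h6 : (2 : ℝ) ^ ((2 * t : ℝ) / 2 ^ b) =
        (2 : ℝ) ^ (((2 * b + 2) * t : ℝ) / 2 ^ b) * (2 : ℝ) ^ (-((2 * b * t : ℝ) / 2 ^ b)) := by
      rw [← Real.rpow_add (by norm_num)]
      congr 1
      ring
    rw [h6] at h3
    have h7 := le_of_mul_le_mul_right h3 h5
    refine h7.trans ?_
    rw [← Real.rpow_natCast 2 E]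
    apply Real.rpow_le_rpow_of_exponent_le (by norm_num)
    rw [div_le_iff₀ (by positivity)]
    have h8 : (((2 * b + 2) * t : ℕ) : ℝ) ≤ ((2 ^ b * E : ℕ) : ℝ) := by exact_mod_cast hE
    push_cast at h8
    linarith
  exact_mod_cast h4

theorem pair_step {d : ℕ → ℕ → Bool} {b t E : ℕ} {s : Bool} {A B I : Finset ℕ}
    (hD : Dom d (2 ^ b) s A B) (hI : I ⊆ A) (hIt : I.card ≤ t)
    (hE : (2 * b + 2) * t ≤ 2 ^ b * E) :
    ∃ R ⊆ I, ∃ B' ⊆ B, 2 ^ b * R.card ≤ 2 * I.card ∧ B.card ≤ 2 * 2 ^ E * B'.card ∧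
      ∀ y ∈ B', ∀ x ∈ I, x ∉ R → d x y = s := by
  classical
  set ρ : ℕ → Finset ℕ := fun y => I.filter (fun x => d x y ≠ s) with hρ
  set B₁ := B.filter (fun y => 2 ^ b * (ρ y).card ≤ 2 * I.card) with hB₁
  have hhalf : B.card ≤ 2 * B₁.card := by
    rcases Nat.eq_zero_or_pos I.card with h0 | hpos
    · have : B₁ = B := by
        rw [hB₁, filter_eq_self]
        intro y _
        have : (ρ y).card ≤ I.card := card_le_card (filter_subset _ _)
        have h1 : (ρ y).card = 0 := by omega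
        rw [h1, h0]
        simp
      rw [this]
      omega
    · have hdc : ∑ y ∈ B, (ρ y).card = ∑ x ∈ I, (B.filter (fun y => d x y ≠ s)).card := by
        simp only [hρ, card_filter]
        exact sum_comm
      have h1 : 2 ^ b * ∑ y ∈ B, (ρ y).card ≤ I.card * B.card := by
        rw [hdc, mul_sum]
        calc _ ≤ ∑ _x ∈ I, B.card := sum_le_sum (fun x hx => hD.few x (hI hx))
          _ = _ := by rw [sum_const, smul_eq_mul]
      set B₂ := B.filter (fun y => ¬ 2 ^ b * (ρ y).card ≤ 2 * I.card) with hB₂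
      have hsum : B₁.card + B₂.card = B.card := card_filter_add_card_filter_not _
      have h2 : B₂.card * (2 * I.card) ≤ 2 ^ b * ∑ y ∈ B, (ρ y).card := by
        calc B₂.card * (2 * I.card) = ∑ _y ∈ B₂, 2 * I.card := by rw [sum_const, smul_eq_mul]
          _ ≤ ∑ y ∈ B₂, 2 ^ b * (ρ y).card := by
              apply sum_le_sum
              intro y hy
              have := (mem_filter.1 hy).2
              omega
          _ ≤ ∑ y ∈ B, 2 ^ b * (ρ y).card := sum_le_sum_of_subset (filter_subset _ _)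
          _ = _ := by rw [mul_sum]
      have h3 : I.card * (2 * B₂.card) ≤ I.card * B.card := by
        calc I.card * (2 * B₂.card) = B₂.card * (2 * I.card) := by ring
          _ ≤ _ := h2.trans h1
      have h4 := Nat.le_of_mul_le_mul_left h3 hpos
      omega
  set 𝓡 := I.powerset.filter (fun R => 2 ^ b * R.card ≤ 2 * I.card) with h𝓡
  have hmap : ∀ y ∈ B₁, ρ y ∈ 𝓡 := by
    intro y hy
    exact mem_filter.2 ⟨mem_powerset.2 (filter_subset _ _), (mem_filter.1 hy).2⟩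
  have hne : 𝓡.Nonempty := ⟨∅, mem_filter.2 ⟨empty_mem_powerset _, by simp⟩⟩
  obtain ⟨R, hR, hmax⟩ := exists_max_image 𝓡 (fun R => (B₁.filter (fun y => ρ y = R)).card) hne
  have hsum : B₁.card = ∑ R ∈ 𝓡, (B₁.filter (fun y => ρ y = R)).card :=
    card_eq_sum_card_fiberwise hmap
  have hle : B₁.card ≤ 2 ^ E * (B₁.filter (fun y => ρ y = R)).card := by
    rw [hsum]
    calc _ ≤ ∑ _R ∈ 𝓡, (B₁.filter (fun y => ρ y = R)).card := sum_le_sum hmax
      _ = 𝓡.card * (B₁.filter (fun y => ρ y = R)).card := by rw [sum_const, smul_eq_mul]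
      _ ≤ _ := Nat.mul_le_mul_right _ (card_small I b t E hIt hE)
  rw [h𝓡, mem_filter, mem_powerset] at hR
  refine ⟨R, hR.1, B₁.filter (fun y => ρ y = R), (filter_subset _ _).trans (filter_subset _ _),
    hR.2, ?_, ?_⟩
  · calc B.card ≤ 2 * B₁.card := hhalf
      _ ≤ 2 * (2 ^ E * (B₁.filter (fun y => ρ y = R)).card) := Nat.mul_le_mul_left _ hle
      _ = _ := by ring
  · intro y hy x hx hxR
    have h1 := (mem_filter.1 hy).2
    by_contra hcon
    exact hxR (h1 ▸ mem_filter.2 ⟨hx, hcon⟩)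

/-- the product of the two largest sizes of homogeneous sets -/
noncomputable def pr (d : ℕ → ℕ → Bool) (W : Finset ℕ) : ℝ := (hm d true W : ℝ) * hm d false W

theorem pr_eq (d : ℕ → ℕ → Bool) (W : Finset ℕ) (s : Bool) :
    pr d W = (hm d s W : ℝ) * hm d (!s) W := by
  unfold pr
  cases s
  · simp [mul_comm]
  · simp

theorem prod_step {d : ℕ → ℕ → Bool} {W₀ : Finset ℕ} {k b t E : ℕ} (hb : 2 ≤ b) (hk : 1 ≤ k)
    (ht : ∀ s, hm d s W₀ ≤ t) (hE : (2 * b + 2) * t ≤ 2 ^ b * E)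
    {G : ℕ → ℕ → Bool} (hG : ¬ Copy d W₀ k G) {p : ℝ} {m : ℕ} (hm1 : 1 ≤ m)
    (hp : ∀ W ⊆ W₀, m ≤ W.card → p ≤ pr d W) :
    ∀ W ⊆ W₀, (k ^ 2 * (2 ^ b) ^ k * 2 ^ E) * m ≤ W.card → 3 / 2 * p ≤ pr d W := by
  classical
  intro W hWW hW
  have hM : 1 ≤ k * 2 ^ E * m := Nat.mul_pos (Nat.mul_pos hk (by positivity)) hm1
  obtain ⟨A, hA, B, hB, s, h1, h2, h3⟩ := exists_dom d (q := 2 ^ b) (M := k * 2 ^ E * m) (k := k)
    Nat.one_le_two_pow hM G W
    (by
      calc k * ((2 ^ b) ^ k * (k * 2 ^ E * m)) = (k ^ 2 * (2 ^ b) ^ k * 2 ^ E) * m := by ring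
        _ ≤ _ := hW)
    (fun ⟨φ, h1, h2⟩ => hG ⟨φ, fun i hi => hWW (h1 i hi), h2⟩)
  obtain ⟨I, hIA, hI1, hI2⟩ := exists_hm d s A
  have hAW₀ : A ⊆ W₀ := hA.trans hWW
  have hBW₀ : B ⊆ W₀ := hB.trans hWW
  have hIt : I.card ≤ t := by
    rw [hI2]
    exact (hm_mono hAW₀).trans (ht s)
  obtain ⟨R, hR, B', hB', h4, h5, h6⟩ := pair_step h3 hIA hIt hE
  have hAm : m ≤ A.card := by
    have h7 : k * (2 ^ E * m) ≤ k * A.card := by
      calc k * (2 ^ E * m) = k * 2 ^ E * m := by ring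
        _ ≤ _ := h1
    have h8 := Nat.le_of_mul_le_mul_left h7 (by omega)
    have h9 : m ≤ 2 ^ E * m := Nat.le_mul_of_pos_left _ (by positivity)
    omega
  have hBm : m ≤ B'.card := by
    have h7 : 2 ^ E * (2 ^ b * k * m) ≤ 2 ^ E * (2 * B'.card) := by
      calc 2 ^ E * (2 ^ b * k * m) = 2 ^ b * (k * 2 ^ E * m) := by ring
        _ ≤ B.card := h2
        _ ≤ 2 * 2 ^ E * B'.card := h5
        _ = _ := by ring
    have h8 := Nat.le_of_mul_le_mul_left h7 (by positivity)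
    have h9 : 2 * m ≤ 2 ^ b * k * m := by
      apply Nat.mul_le_mul_right
      calc 2 = 2 ^ 1 * 1 := by norm_num
        _ ≤ 2 ^ b * k := Nat.mul_le_mul (Nat.pow_le_pow_right (by norm_num) (by omega)) hk
    omega
  obtain ⟨I', hI'B, hI'1, hI'2⟩ := exists_hm d s B'
  have hpA := hp A hAW₀ hAm
  have hpB := hp B' (hB'.trans hBW₀) hBm
  have hlt : ∀ x ∈ I \ R, ∀ y ∈ I', x < y := fun x hx y hy =>
    h3.lt x (hIA (mem_sdiff.1 hx).1) y (hB' (hI'B hy))
  have hdisj : Disjoint (I \ R) I' := by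
    rw [disjoint_left]
    intro x hx hx'
    exact lt_irrefl _ (hlt x hx x hx')
  have hmono : Mono d s ((I \ R) ∪ I') := by
    intro x hx y hy hxy
    rw [mem_union] at hx hy
    rcases hx with hx | hx
    · rcases hy with hy | hy
      · exact hI1 x (mem_sdiff.1 hx).1 y (mem_sdiff.1 hy).1 hxy
      · exact h6 y (hI'B hy) x (mem_sdiff.1 hx).1 (mem_sdiff.1 hx).2
    · rcases hy with hy | hy
      · exact absurd (hlt y hy x hx) (by omega)
      · exact hI'1 x hx y hy hxy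
  have hsub : (I \ R) ∪ I' ⊆ W := union_subset (sdiff_subset.trans (hIA.trans hA))
    (hI'B.trans (hB'.trans hB))
  have h7 := le_hm hsub hmono
  rw [card_union_of_disjoint hdisj, card_sdiff_of_subset hR, hI'2] at h7
  have h8 : hm d (!s) A ≤ hm d (!s) W := hm_mono hA
  have h9 : hm d (!s) B' ≤ hm d (!s) W := hm_mono (hB'.trans hB)
  have hRle : R.card ≤ I.card := card_le_card hR
  have h10 : (I.card : ℝ) / 2 + hm d s B' ≤ hm d s W := by
    have h11 : 2 * R.card ≤ I.card := by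
      have h12 : 4 * R.card ≤ 2 ^ b * R.card := by
        apply Nat.mul_le_mul_right
        calc 4 = 2 ^ 2 := by norm_num
          _ ≤ 2 ^ b := Nat.pow_le_pow_right (by norm_num) hb
      omega
    have h13 : I.card + 2 * hm d s B' ≤ 2 * hm d s W := by omega
    have h14 : (I.card : ℝ) + 2 * hm d s B' ≤ 2 * hm d s W := by exact_mod_cast h13
    linarith
  rw [pr_eq d A s] at hpA
  rw [pr_eq d B' s] at hpB
  rw [pr_eq d W s]
  rw [hI2] at h10
  have h8' : (hm d (!s) A : ℝ) ≤ hm d (!s) W := by exact_mod_cast h8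
  have h9' : (hm d (!s) B' : ℝ) ≤ hm d (!s) W := by exact_mod_cast h9
  have n1 : (0 : ℝ) ≤ hm d s A := Nat.cast_nonneg _
  have n2 : (0 : ℝ) ≤ hm d s B' := Nat.cast_nonneg _
  have n3 : (0 : ℝ) ≤ hm d (!s) W := Nat.cast_nonneg _
  calc 3 / 2 * p ≤ (hm d s A : ℝ) * hm d (!s) A / 2 + hm d s B' * hm d (!s) B' := by linarith
    _ ≤ (hm d s A : ℝ) * hm d (!s) W / 2 + hm d s B' * hm d (!s) W := by
        have e1 := mul_le_mul_of_nonneg_left h8' n1
        have e2 := mul_le_mul_of_nonneg_left h9' n2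
        linarith
    _ = ((hm d s A : ℝ) / 2 + hm d s B') * hm d (!s) W := by ring
    _ ≤ _ := mul_le_mul_of_nonneg_right h10 n3

theorem prod_iter {d : ℕ → ℕ → Bool} {W₀ : Finset ℕ} {k b t E : ℕ} (hb : 2 ≤ b) (hk : 1 ≤ k)
    (ht : ∀ s, hm d s W₀ ≤ t) (hE : (2 * b + 2) * t ≤ 2 ^ b * E)
    {G : ℕ → ℕ → Bool} (hG : ¬ Copy d W₀ k G) {p : ℝ} {m : ℕ} (hm1 : 1 ≤ m)
    (hp : ∀ W ⊆ W₀, m ≤ W.card → p ≤ pr d W) (j : ℕ) :
    ∀ W ⊆ W₀, (k ^ 2 * (2 ^ b) ^ k * 2 ^ E) ^ j * m ≤ W.card → (3 / 2) ^ j * p ≤ pr d W := by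
  induction j with
  | zero => simpa using hp
  | succ j ih =>
    intro W hW hc
    have h1 := prod_step hb hk ht hE hG (p := (3 / 2) ^ j * p)
      (m := (k ^ 2 * (2 ^ b) ^ k * 2 ^ E) ^ j * m)
      (Nat.mul_pos (pow_pos (by positivity) _) hm1) ih W hW
      (by
        calc _ = (k ^ 2 * (2 ^ b) ^ k * 2 ^ E) ^ (j + 1) * m := by ring
          _ ≤ _ := hc)
    calc (3 / 2 : ℝ) ^ (j + 1) * p = 3 / 2 * ((3 / 2) ^ j * p) := by ring
      _ ≤ _ := h1

theorem poly_le (a : ℕ) : (4 * a + 6) * (4 * a + 20) ≤ 2 ^ (a + 8) := by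
  induction a with
  | zero => norm_num
  | succ a ih =>
    rcases Nat.eq_zero_or_pos a with rfl | h
    · norm_num
    · calc (4 * (a + 1) + 6) * (4 * (a + 1) + 20) ≤ 2 * ((4 * a + 6) * (4 * a + 20)) := by nlinarith
        _ ≤ 2 * 2 ^ (a + 8) := Nat.mul_le_mul_left _ ih
        _ = _ := by ring

theorem poly_le' (a : ℕ) : 2 * (2 * a + 12) * (4 * a + 6) ≤ 144 * (a + 1) ^ 2 := by
  nlinarith

/-- **Ordered universality.** -/
theorem ordered_universal (a k z : ℕ) (hk : 1 ≤ k) (hz : 144 * k * (a + 1) ^ 2 ≤ z)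
    (d : ℕ → ℕ → Bool) (W : Finset ℕ) (hW : 4 ^ z ≤ W.card)
    (hmono : ∀ b, ∀ H ⊆ W, Mono d b H → H.card < 2 ^ a * z) (G : ℕ → ℕ → Bool) :
    Copy d W k G := by
  classical
  by_contra hG
  have hz0 : 1 ≤ z := by
    have : 1 ≤ 144 * k * (a + 1) ^ 2 := Nat.mul_pos (Nat.mul_pos (by norm_num) hk) (by positivity)
    omega
  set b := 2 * a + 9 with hb
  set t := 2 ^ a * z with ht
  -- the integer `E`
  obtain ⟨E, hE1, hE2⟩ : ∃ E : ℕ, (2 * b + 2) * t ≤ 2 ^ b * E ∧ 2 ^ b * E ≤ (2 * b + 2) * t + 2 ^ b := by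
    refine ⟨(2 * b + 2) * t / 2 ^ b + 1, ?_, ?_⟩
    · have := Nat.lt_mul_div_succ ((2 * b + 2) * t) (b := 2 ^ b) (by positivity)
      exact this.le
    · rw [mul_add, mul_one]
      apply Nat.add_le_add_right
      exact Nat.mul_div_le _ _
  have hts : ∀ s, hm d s W ≤ t := by
    intro s
    obtain ⟨H, hH, h1, h2⟩ := exists_hm d s W
    rw [← h2]
    exact (hmono s H hH h1).le
  set p : ℝ := (z * Real.log 2) ^ 2 / 4 with hp
  have hbase : ∀ V ⊆ W, 2 ^ z ≤ V.card → p ≤ pr d V := by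
    intro V _ hV
    have hVne : V.Nonempty := by
      rw [← card_pos]
      exact lt_of_lt_of_le (by positivity) hV
    refine le_trans ?_ (log_sq_le d V hVne)
    have h1 : (z : ℝ) * Real.log 2 ≤ Real.log V.card := by
      rw [← Real.log_pow]
      apply Real.log_le_log (by positivity)
      exact_mod_cast hV
    have h2 : 0 ≤ (z : ℝ) * Real.log 2 := by positivity
    rw [hp]
    have := pow_le_pow_left₀ h2 h1 2
    linarith
  have hmain := prod_iter (b := b) (by omega) hk hts hE1 hG (p := p) (m := 2 ^ z)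
    Nat.one_le_two_pow hbase (4 * a + 6) W (Subset.refl _)
  have hsize : (k ^ 2 * (2 ^ b) ^ k * 2 ^ E) ^ (4 * a + 6) * 2 ^ z ≤ W.card := by
    refine le_trans ?_ hW
    have h1 : k ^ 2 ≤ 2 ^ (2 * k) := by
      calc k ^ 2 ≤ (2 ^ k) ^ 2 := Nat.pow_le_pow_left Nat.lt_two_pow_self.le 2
        _ = _ := by rw [← pow_mul, mul_comm]
    have h2 : k ^ 2 * (2 ^ b) ^ k * 2 ^ E ≤ 2 ^ (2 * k + b * k + E) := by
      calc k ^ 2 * (2 ^ b) ^ k * 2 ^ E ≤ 2 ^ (2 * k) * (2 ^ b) ^ k * 2 ^ E :=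
            Nat.mul_le_mul_right _ (Nat.mul_le_mul_right _ h1)
        _ = 2 ^ (2 * k + b * k + E) := by rw [← pow_mul, ← pow_add, ← pow_add]
    have h3 : (2 * k + b * k + E) * (4 * a + 6) ≤ z := by
      -- bound for `E`
      have e1 : 2 ^ b = 2 ^ (a + 9) * 2 ^ a := by rw [← pow_add]; congr 1; omega
      have e2 : 2 ^ (a + 9) * E ≤ (2 * b + 2) * z + 2 ^ (a + 9) := by
        have e3 : 2 ^ a * (2 ^ (a + 9) * E) ≤ 2 ^ a * ((2 * b + 2) * z + 2 ^ (a + 9)) := by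
          calc 2 ^ a * (2 ^ (a + 9) * E) = 2 ^ b * E := by rw [e1]; ring
            _ ≤ (2 * b + 2) * t + 2 ^ b := hE2
            _ = _ := by rw [e1, ht]; ring
        exact Nat.le_of_mul_le_mul_left e3 (by positivity)
      have e4 := poly_le a
      have e5 : 2 ^ (a + 9) * ((2 * k + b * k + E) * (4 * a + 6)) ≤ 2 ^ (a + 9) * z := by
        have e6 : 2 ^ (a + 9) = 2 * 2 ^ (a + 8) := by ring
        have e7 : (2 * b + 2) * z * (4 * a + 6) ≤ 2 ^ (a + 8) * z := by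
          calc (2 * b + 2) * z * (4 * a + 6) = ((4 * a + 6) * (4 * a + 20)) * z := by
                rw [hb]; ring
            _ ≤ _ := Nat.mul_le_mul_right _ e4
        have e8 : 2 * ((2 * k + b * k + 1) * (4 * a + 6)) ≤ z := by
          refine le_trans ?_ hz
          have : 2 * k + b * k + 1 ≤ (2 * a + 12) * k := by rw [hb]; nlinarith
          calc 2 * ((2 * k + b * k + 1) * (4 * a + 6)) ≤ 2 * (((2 * a + 12) * k) * (4 * a + 6)) := by
                apply Nat.mul_le_mul_left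
                exact Nat.mul_le_mul_right _ this
            _ = k * (2 * (2 * a + 12) * (4 * a + 6)) := by ring
            _ ≤ k * (144 * (a + 1) ^ 2) := by
                exact Nat.mul_le_mul_left _ (poly_le' a)
            _ = _ := by ring
        calc 2 ^ (a + 9) * ((2 * k + b * k + E) * (4 * a + 6))
            = 2 ^ (a + 9) * ((2 * k + b * k) * (4 * a + 6)) + (2 ^ (a + 9) * E) * (4 * a + 6) := by
              ring
          _ ≤ 2 ^ (a + 9) * ((2 * k + b * k) * (4 * a + 6)) +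
                ((2 * b + 2) * z + 2 ^ (a + 9)) * (4 * a + 6) := by
              apply Nat.add_le_add_left
              exact Nat.mul_le_mul_right _ e2
          _ = 2 ^ (a + 8) * (2 * ((2 * k + b * k + 1) * (4 * a + 6))) +
                (2 * b + 2) * z * (4 * a + 6) := by
              rw [e6]
              generalize 2 ^ (a + 8) = Q
              ring
          _ ≤ 2 ^ (a + 8) * z + 2 ^ (a + 8) * z :=
              Nat.add_le_add (Nat.mul_le_mul_left _ e8) e7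
          _ = 2 ^ (a + 9) * z := by
              rw [e6]
              generalize 2 ^ (a + 8) = Q
              ring
      exact Nat.le_of_mul_le_mul_left e5 (by positivity)
    calc (k ^ 2 * (2 ^ b) ^ k * 2 ^ E) ^ (4 * a + 6) * 2 ^ z
        ≤ (2 ^ (2 * k + b * k + E)) ^ (4 * a + 6) * 2 ^ z :=
          Nat.mul_le_mul_right _ (Nat.pow_le_pow_left h2 _)
      _ = 2 ^ ((2 * k + b * k + E) * (4 * a + 6) + z) := by rw [← pow_mul, ← pow_add]
      _ ≤ 2 ^ (2 * z) := Nat.pow_le_pow_right (by norm_num) (by omega)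
      _ = 4 ^ z := by rw [pow_mul]; norm_num
  have hlow := hmain hsize
  -- upper bound
  have hup : pr d W ≤ ((2 : ℝ) ^ a * z) ^ 2 := by
    have h1 : ∀ s, (hm d s W : ℝ) ≤ (2 : ℝ) ^ a * z := by
      intro s
      have : ((hm d s W : ℕ) : ℝ) ≤ ((2 ^ a * z : ℕ) : ℝ) := by exact_mod_cast hts s
      push_cast at this
      exact this
    unfold pr
    rw [sq]
    exact mul_le_mul (h1 true) (h1 false) (by positivity) (by positivity)
  have hlt : ((2 : ℝ) ^ a * z) ^ 2 < (3 / 2) ^ (4 * a + 6) * p := by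
    have h1 : (0.69 : ℝ) < Real.log 2 := by
      have := Real.log_two_gt_d9
      linarith
    have hz' : (0 : ℝ) < z := by exact_mod_cast hz0
    have h2 : (0.119 : ℝ) * z ^ 2 < p := by
      rw [hp]
      have h3 : (0.69 : ℝ) ^ 2 < Real.log 2 ^ 2 := by
        apply pow_lt_pow_left₀ h1 (by norm_num) (by norm_num)
      have h4 : (0 : ℝ) < (z : ℝ) ^ 2 := by positivity
      rw [mul_pow]
      nlinarith
    have h3 : (4 : ℝ) ^ a ≤ (3 / 2) ^ (4 * a) := by
      rw [pow_mul]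
      apply pow_le_pow_left₀ (by norm_num)
      norm_num
    have h4 : ((2 : ℝ) ^ a * z) ^ 2 = 4 ^ a * (z : ℝ) ^ 2 := by
      rw [mul_pow, ← pow_mul, mul_comm a 2, pow_mul]
      norm_num
    rw [h4, pow_add]
    have h5 : (0 : ℝ) < (3 / 2) ^ (4 * a) := by positivity
    have h6 : (0 : ℝ) < (z : ℝ) ^ 2 := by positivity
    calc (4 : ℝ) ^ a * (z : ℝ) ^ 2 ≤ (3 / 2) ^ (4 * a) * (z : ℝ) ^ 2 :=
          mul_le_mul_of_nonneg_right h3 h6.le
      _ < (3 / 2) ^ (4 * a) * ((3 / 2) ^ 6 * (0.119 * (z : ℝ) ^ 2)) := by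
          apply mul_lt_mul_of_pos_left _ h5
          norm_num
          nlinarith
      _ < (3 / 2) ^ (4 * a) * ((3 / 2) ^ 6 * p) := by
          apply mul_lt_mul_of_pos_left _ h5
          apply mul_lt_mul_of_pos_left h2
          positivity
      _ = _ := by ring
  linarith

end Pool.Agent.Run7.h384.UNI
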